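import Pool.Agent.J4H20.LV.Stm
import Pool.Agent.J4H57.TQ.Zz
import Pool.Agent.J4H97.TQ.PL

/-!
# Project LV of helper20: (CLL), the limit equations (helper52)

`β = 1, ..., t` and `K + l / K` for `l < n = m - t`, `K = k + 1 → ∞`.
-/

set_option autoImplicit false

namespace Pool.Agent.J4H52.LV

open Polynomial Filter Topology Pool.Agent.J4H20.TP Pool.Agent.J4H20.TQ Pool.Agent.J4H20.LV

theorem fi (p t : ℕ) (hp : p ≠ 0) (ι κ : Type) [Fintype ι] [Fintype κ]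
    (hι : Fintype.card ι = p) (hκ : Fintype.card κ = p - 1) (β : ι → ℚ)
    (hβ : Function.Injective β) (hs : ∑ i, β i ≠ 0) (w : κ → ℂ) (hw : Function.Injective w)
    (h : ∀ i, aeval (w i) (X ^ p - ∏ i, (X - C (β i : ℝ)) : ℝ[X]) = 0 ∧
      aeval (w i) (derivative (X ^ p - ∏ i, (X - C (β i : ℝ)) : ℝ[X])) ≠ 0)
    (hc : {i | (w i).im = 0}.ncard = t) :
    ∃ α : Fin p → ℚ, Function.Injective α ∧ ∑ i, α i = 0 ∧
      ∃ z : Fin (p - 1) → ℂ, Function.Injective z ∧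
        (∀ i, aeval (z i) ((X + 1) ^ p - ∏ i, (X - C (α i : ℝ)) : ℝ[X]) = 0 ∧
          aeval (z i) (derivative ((X + 1) ^ p - ∏ i, (X - C (α i : ℝ)) : ℝ[X])) ≠ 0) ∧
        {i | (z i).im = 0}.ncard = t := by
  classical
  have hpq : (p : ℚ) ≠ 0 := by exact_mod_cast hp
  set c : ℚ := (∑ i, β i) / p with hcd
  have hc0 : c ≠ 0 := div_ne_zero hs hpq
  have hcR : (c : ℝ) ≠ 0 := by exact_mod_cast hc0
  have hcC : ((c : ℝ) : ℂ) ≠ 0 := by exact_mod_cast hcR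
  let e : Fin p ≃ ι := Fintype.equivOfCardEq (by rw [Fintype.card_fin, hι])
  let e' : Fin (p - 1) ≃ κ := Fintype.equivOfCardEq (by rw [Fintype.card_fin, hκ])
  have hpoly : C ((c : ℝ) ^ p) * ((X + 1) ^ p - ∏ i : Fin p, (X - C ((β (e i) / c - 1 : ℚ) : ℝ))) =
      (X ^ p - ∏ i, (X - C (β i : ℝ)) : ℝ[X]).comp (C (c : ℝ) * (X + 1)) := by
    rw [sub_comp, pow_comp, X_comp, mul_sub, mul_pow, ← C_pow, prod_comp]
    congr 1
    rw [← Equiv.prod_comp e]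
    have h4 : (C ((c : ℝ) ^ p) : ℝ[X]) = ∏ _l : Fin p, C (c : ℝ) := by
      rw [Finset.prod_const, Finset.card_univ, Fintype.card_fin, ← C_pow]
    rw [h4, ← Finset.prod_mul_distrib]
    refine Finset.prod_congr rfl fun i _ => ?_
    have h5 : (β (e i) : ℝ) = (c : ℝ) * ((β (e i) / c - 1 : ℚ) : ℝ) + c := by
      push_cast
      field_simp
      ring
    rw [sub_comp, X_comp, C_comp, h5, C_add, C_mul]
    ring
  refine ⟨fun i => β (e i) / c - 1, ?_, ?_, fun i => w (e' i) / (c : ℝ) - 1, ?_, ?_, ?_⟩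
  · intro a b hab
    have h1 : β (e a) / c = β (e b) / c := by
      simpa using hab
    have h2 : β (e a) = β (e b) := by
      field_simp at h1
      exact h1
    exact e.injective (hβ h2)
  · rw [Finset.sum_sub_distrib, ← Finset.sum_div, Equiv.sum_comp e β, Finset.sum_const,
      Finset.card_univ, Fintype.card_fin, nsmul_eq_mul, mul_one, hcd]
    field_simp
    ring
  · intro a b hab
    have h1 : w (e' a) / ((c : ℝ) : ℂ) = w (e' b) / ((c : ℝ) : ℂ) := by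
      simpa using hab
    have h2 : w (e' a) = w (e' b) := by
      field_simp at h1
      exact h1
    exact e'.injective (hw h2)
  · intro i
    have hq : aeval (w (e' i) / ((c : ℝ) : ℂ) - 1) (C (c : ℝ) * (X + 1) : ℝ[X]) = w (e' i) := by
      rw [map_mul, map_add, aeval_X, aeval_C, map_one]
      have : (algebraMap ℝ ℂ) (c : ℝ) = ((c : ℝ) : ℂ) := rfl
      rw [this]
      field_simp
      ring
    constructor
    · have h1 := congrArg (aeval (w (e' i) / ((c : ℝ) : ℂ) - 1)) hpoly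
      rw [map_mul, aeval_comp, hq, (h (e' i)).1, aeval_C] at h1
      refine (mul_eq_zero.1 h1).resolve_left ?_
      have : (algebraMap ℝ ℂ) ((c : ℝ) ^ p) = ((c : ℝ) : ℂ) ^ p := by
        rw [map_pow]; rfl
      rw [this]
      exact pow_ne_zero _ hcC
    · intro h0
      have h1 := congrArg (fun q : ℝ[X] => aeval (w (e' i) / ((c : ℝ) : ℂ) - 1) (derivative q)) hpoly
      simp only [derivative_C_mul, derivative_comp] at h1
      rw [map_mul, h0, mul_zero, map_mul, aeval_comp, hq] at h1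
      rcases mul_eq_zero.1 h1.symm with h2 | h2
      · have h3 : derivative (X + 1 : ℝ[X]) = 1 := by
          rw [derivative_add, derivative_X, derivative_one, add_zero]
        rw [h3, mul_one, aeval_C] at h2
        exact hcC h2
      · exact (h (e' i)).2 h2
  · rw [← hc]
    have h1 : {i | (w (e' i) / ((c : ℝ) : ℂ) - 1).im = 0} = e' ⁻¹' {i | (w i).im = 0} := by
      ext i
      simp only [Set.mem_ofPred_eq, Set.mem_preimage]
      rw [Complex.sub_im, Complex.one_im, sub_zero, Complex.div_ofReal_im, div_eq_zero_iff]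
      simp [hcR]
    rw [h1, ← Equiv.image_symm_eq_preimage, Set.ncard_image_of_injective _ e'.symm.injective]

/-- coefficientwise convergence -/
def CT (Q : ℕ → ℝ[X]) (P : ℝ[X]) : Prop :=
  ∀ j, Tendsto (fun m => (Q m).coeff j) atTop (𝓝 (P.coeff j))

lemma CT.const (P : ℝ[X]) : CT (fun _ => P) P := fun _ => tendsto_const_nhds

lemma CT.sub {Q Q' : ℕ → ℝ[X]} {P P' : ℝ[X]} (h : CT Q P) (h' : CT Q' P') :
    CT (fun m => Q m - Q' m) (P - P') := by
  intro j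
  simp only [coeff_sub]
  exact (h j).sub (h' j)

lemma CT.mul {Q Q' : ℕ → ℝ[X]} {P P' : ℝ[X]} (h : CT Q P) (h' : CT Q' P') :
    CT (fun m => Q m * Q' m) (P * P') := by
  intro j
  simp only [coeff_mul]
  exact tendsto_finsetSum _ fun x _ => (h x.1).mul (h' x.2)

lemma CT.cc {u : ℕ → ℝ} {v : ℝ} (h : Tendsto u atTop (𝓝 v)) : CT (fun m => C (u m)) (C v) := by
  intro j
  simp only [coeff_C]
  split_ifs
  · exact h
  · exact tendsto_const_nhds

lemma CT.prod {ι : Type} (s : Finset ι) {Q : ι → ℕ → ℝ[X]} {P : ι → ℝ[X]}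
    (h : ∀ i ∈ s, CT (Q i) (P i)) : CT (fun m => ∏ i ∈ s, Q i m) (∏ i ∈ s, P i) := by
  classical
  induction s using Finset.induction_on with
  | empty => simp only [Finset.prod_empty]; exact CT.const 1
  | insert a s ha ih =>
    simp only [Finset.prod_insert ha]
    exact (h a (Finset.mem_insert_self _ _)).mul (ih fun i hi => h i (Finset.mem_insert_of_mem hi))

/-- the points -/
def be (t n k : ℕ) : Fin t ⊕ Fin n → ℚ
  | Sum.inl l => (l : ℕ) + 1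
  | Sum.inr l => ((k : ℚ) + 1) + ((l : ℕ) : ℚ) / ((k : ℚ) + 1)

lemma be_inl (t n k : ℕ) (l : Fin t) : be t n k (Sum.inl l) = (l : ℕ) + 1 := rfl

lemma be_inr (t n k : ℕ) (l : Fin n) :
    be t n k (Sum.inr l) = ((k : ℚ) + 1) + ((l : ℕ) : ℚ) / ((k : ℚ) + 1) := rfl

lemma be_pos (t n k : ℕ) (i : Fin t ⊕ Fin n) : 0 < be t n k i := by
  rcases i with l | l
  · rw [be_inl]; positivity
  · rw [be_inr]; positivity

lemma be_inj (t n k : ℕ) (hk : t ≤ k) : Function.Injective (be t n k) := by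
  have hK : (0 : ℚ) < (k : ℚ) + 1 := by positivity
  have hm : ∀ l : Fin t, ((l : ℕ) : ℚ) + 1 < (k : ℚ) + 1 := by
    intro l
    have : (l : ℕ) < k := lt_of_lt_of_le l.2 hk
    have : ((l : ℕ) : ℚ) < k := by exact_mod_cast this
    linarith
  rintro (a | a) (b | b) h
  · rw [be_inl, be_inl] at h
    have h1 : ((a : ℕ) : ℚ) = (b : ℕ) := by linarith
    have h2 : (a : ℕ) = b := by exact_mod_cast h1
    rw [Fin.ext h2]
  · exfalso
    rw [be_inl, be_inr] at h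
    have h1 := hm a
    have h2 : 0 ≤ ((b : ℕ) : ℚ) / ((k : ℚ) + 1) := by positivity
    linarith
  · exfalso
    rw [be_inl, be_inr] at h
    have h1 := hm b
    have h2 : 0 ≤ ((a : ℕ) : ℚ) / ((k : ℚ) + 1) := by positivity
    linarith
  · rw [be_inr, be_inr] at h
    have h1 : ((a : ℕ) : ℚ) / ((k : ℚ) + 1) = ((b : ℕ) : ℚ) / ((k : ℚ) + 1) := by linarith
    have h2 : ((a : ℕ) : ℚ) = (b : ℕ) := by
      field_simp at h1
      exact h1
    have h3 : (a : ℕ) = b := by exact_mod_cast h2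
    rw [Fin.ext h3]

/-- the polynomial `w ^ p - ∏ (w - β i)` -/
noncomputable def Pk (t n k : ℕ) : ℝ[X] :=
  X ^ (t + n) - ∏ i, (X - C ((be t n k i : ℚ) : ℝ))

lemma Pk_ne (t n k : ℕ) (hn : 1 ≤ n) : Pk t n k ≠ 0 := by
  intro h
  have h1 := congrArg (eval ((be t n k (Sum.inr ⟨0, hn⟩) : ℚ) : ℝ)) h
  rw [Pk, eval_sub, eval_pow, eval_X, eval_prod,
    Finset.prod_eq_zero (Finset.mem_univ (Sum.inr ⟨0, hn⟩)) (by simp), sub_zero, eval_zero] at h1
  have h2 : (0 : ℝ) < ((be t n k (Sum.inr ⟨0, hn⟩) : ℚ) : ℝ) := by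
    exact_mod_cast be_pos t n k _
  exact (pow_pos h2 _).ne' h1

lemma Pk_deg (t n k : ℕ) (hn : 1 ≤ n) : (Pk t n k).natDegree ≤ t + (n - 1) := by
  have hmon : (∏ i, (X - C ((be t n k i : ℚ) : ℝ)) : ℝ[X]).Monic :=
    monic_prod_of_monic _ _ fun i _ => monic_X_sub_C _
  have hdeg : (∏ i, (X - C ((be t n k i : ℚ) : ℝ)) : ℝ[X]).natDegree = t + n := by
    rw [natDegree_prod_of_monic _ _ fun i _ => monic_X_sub_C _]
    simp only [natDegree_X_sub_C]
    simp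
  have h1 : (Pk t n k).degree < ((t + n : ℕ) : WithBot ℕ) := by
    have h2 : (X ^ (t + n) : ℝ[X]).degree = ((t + n : ℕ) : WithBot ℕ) := degree_X_pow _
    rw [← h2]
    refine degree_sub_lt_left ?_ (pow_ne_zero _ X_ne_zero) ?_
    · rw [h2, degree_eq_natDegree hmon.ne_zero, hdeg]
    · rw [hmon.leadingCoeff, (monic_X_pow _).leadingCoeff]
  have h2 := (natDegree_lt_iff_degree_lt (Pk_ne t n k hn)).2 h1
  omega

lemma K_inv : Tendsto (fun k : ℕ => ((k : ℝ) + 1)⁻¹) atTop (𝓝 0) := by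
  have h1 : Tendsto (fun k : ℕ => ((k : ℝ) + 1)) atTop atTop :=
    tendsto_atTop_add_const_right _ _ tendsto_natCast_atTop_atTop
  exact h1.inv_tendsto_atTop

/-- near the places `1, ..., 2 m` -/
lemma lim_inl (t n : ℕ) (hn : Odd n) (d : ℕ) :
    Tendsto (fun k : ℕ => (((k : ℝ) + 1) ^ n)⁻¹ *
      ((Pk t n k).comp (C (0 : ℝ) + C (1 : ℝ) * X)).coeff d) atTop
      (𝓝 ((∏ l : Fin t, (X - C (((l : ℕ) : ℝ) + 1)) : ℝ[X]).coeff d)) := by
  have hn0 : n ≠ 0 := by rintro rfl; exact absurd hn (by decide)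
  have hK := K_inv
  have h1 : CT (fun k : ℕ => C ((((k : ℝ) + 1)⁻¹) ^ n) * X ^ (t + n) -
      (∏ l : Fin t, (X - C (((l : ℕ) : ℝ) + 1))) * ∏ l : Fin n,
        (C (((k : ℝ) + 1)⁻¹) * X - C (1 + ((l : ℕ) : ℝ) * (((k : ℝ) + 1)⁻¹) ^ 2)))
      (C ((0 : ℝ) ^ n) * X ^ (t + n) - (∏ l : Fin t, (X - C (((l : ℕ) : ℝ) + 1))) *
        ∏ l : Fin n, (C (0 : ℝ) * X - C (1 + ((l : ℕ) : ℝ) * 0 ^ 2))) := by
    refine ((CT.cc (hK.pow n)).mul (CT.const _)).sub ((CT.const _).mul (CT.prod _ fun l _ => ?_))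
    exact ((CT.cc hK).mul (CT.const _)).sub
      (CT.cc (tendsto_const_nhds.add (tendsto_const_nhds.mul (hK.pow 2))))
  have h2 := h1 d
  have h3 : (C ((0 : ℝ) ^ n) * X ^ (t + n) - (∏ l : Fin t, (X - C (((l : ℕ) : ℝ) + 1))) *
        ∏ l : Fin n, (C (0 : ℝ) * X - C (1 + ((l : ℕ) : ℝ) * 0 ^ 2)) : ℝ[X]) =
      ∏ l : Fin t, (X - C (((l : ℕ) : ℝ) + 1)) := by
    rw [zero_pow hn0]
    simp [hn.neg_one_pow]
  rw [h3] at h2
  refine h2.congr fun k => ?_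
  have hk : ((k : ℝ) + 1) ≠ 0 := by positivity
  rw [← coeff_C_mul]
  refine congrArg (fun q : ℝ[X] => q.coeff d) ?_
  rw [C_0, C_1, zero_add, one_mul, comp_X, Pk, mul_sub, Fintype.prod_sum_type, ← inv_pow]
  have e1 : ∏ l : Fin t, (X - C ((be t n k (Sum.inl l) : ℚ) : ℝ)) =
      ∏ l : Fin t, (X - C (((l : ℕ) : ℝ) + 1)) := by
    refine Finset.prod_congr rfl fun l _ => ?_
    rw [be_inl]
    push_cast
    rfl
  have h4 : (C ((((k : ℝ) + 1)⁻¹) ^ n) : ℝ[X]) = ∏ _l : Fin n, C (((k : ℝ) + 1)⁻¹) := by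
    rw [Finset.prod_const, Finset.card_univ, Fintype.card_fin, ← C_pow]
  have e2 : C ((((k : ℝ) + 1)⁻¹) ^ n) * ∏ l : Fin n, (X - C ((be t n k (Sum.inr l) : ℚ) : ℝ)) =
      ∏ l : Fin n, (C (((k : ℝ) + 1)⁻¹) * X - C (1 + ((l : ℕ) : ℝ) * (((k : ℝ) + 1)⁻¹) ^ 2)) := by
    rw [h4, ← Finset.prod_mul_distrib]
    refine Finset.prod_congr rfl fun l _ => ?_
    rw [mul_sub, ← C_mul, be_inr]
    have : ((k : ℝ) + 1)⁻¹ * ((((k : ℚ) + 1) + ((l : ℕ) : ℚ) / ((k : ℚ) + 1) : ℚ) : ℝ) =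
        1 + ((l : ℕ) : ℝ) * (((k : ℝ) + 1)⁻¹) ^ 2 := by
      push_cast
      field_simp
    rw [this]
  rw [e1, mul_left_comm, e2]

/-- near infinity -/
lemma lim_inr (t n : ℕ) (d : ℕ) :
    Tendsto (fun k : ℕ => (((k : ℝ) + 1) ^ (t + n))⁻¹ *
      ((Pk t n k).comp (C (0 : ℝ) + C ((k : ℝ) + 1) * X)).coeff d) atTop
      (𝓝 ((X ^ t * (X ^ n - (X - 1) ^ n) : ℝ[X]).coeff d)) := by
  have hK := K_inv
  have h1 : CT (fun k : ℕ => X ^ (t + n) -
      (∏ l : Fin t, (X - C ((((l : ℕ) : ℝ) + 1) * ((k : ℝ) + 1)⁻¹))) * ∏ l : Fin n,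
        (X - C (1 + ((l : ℕ) : ℝ) * (((k : ℝ) + 1)⁻¹) ^ 2)))
      (X ^ (t + n) - (∏ l : Fin t, (X - C ((((l : ℕ) : ℝ) + 1) * 0))) *
        ∏ l : Fin n, (X - C (1 + ((l : ℕ) : ℝ) * 0 ^ 2))) := by
    refine (CT.const _).sub ((CT.prod _ fun l _ => ?_).mul (CT.prod _ fun l _ => ?_))
    · exact (CT.const _).sub (CT.cc (tendsto_const_nhds.mul hK))
    · exact (CT.const _).sub (CT.cc (tendsto_const_nhds.add (tendsto_const_nhds.mul (hK.pow 2))))
  have h2 := h1 d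
  have h3 : (X ^ (t + n) - (∏ l : Fin t, (X - C ((((l : ℕ) : ℝ) + 1) * 0))) *
        ∏ l : Fin n, (X - C (1 + ((l : ℕ) : ℝ) * 0 ^ 2)) : ℝ[X]) =
      X ^ t * (X ^ n - (X - 1) ^ n) := by
    simp
    ring
  rw [h3] at h2
  refine h2.congr fun k => ?_
  have hk : ((k : ℝ) + 1) ≠ 0 := by positivity
  rw [← coeff_C_mul]
  refine congrArg (fun q : ℝ[X] => q.coeff d) ?_
  rw [C_0, zero_add, Pk, sub_comp, mul_sub, pow_comp, X_comp, Fintype.prod_sum_type, mul_comp,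
    prod_comp, prod_comp]
  have h4 : (C ((((k : ℝ) + 1) ^ (t + n))⁻¹) : ℝ[X]) =
      (∏ _l : Fin t, C (((k : ℝ) + 1)⁻¹)) * ∏ _l : Fin n, C (((k : ℝ) + 1)⁻¹) := by
    rw [Finset.prod_const, Finset.card_univ, Fintype.card_fin, Finset.prod_const,
      Finset.card_univ, Fintype.card_fin, ← pow_add, ← C_pow, inv_pow]
  have e0 : C ((((k : ℝ) + 1) ^ (t + n))⁻¹) * (C ((k : ℝ) + 1) * X) ^ (t + n) =
      X ^ (t + n) := by
    rw [mul_pow, ← C_pow, ← mul_assoc, ← C_mul, inv_mul_cancel₀ (pow_ne_zero _ hk), C_1, one_mul]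
  have e1 : (∏ _l : Fin t, C (((k : ℝ) + 1)⁻¹)) *
      (∏ l : Fin t, (X - C ((be t n k (Sum.inl l) : ℚ) : ℝ)).comp (C ((k : ℝ) + 1) * X)) =
      ∏ l : Fin t, (X - C ((((l : ℕ) : ℝ) + 1) * ((k : ℝ) + 1)⁻¹)) := by
    rw [← Finset.prod_mul_distrib]
    refine Finset.prod_congr rfl fun l _ => ?_
    rw [sub_comp, X_comp, C_comp, mul_sub, ← mul_assoc, ← C_mul, ← C_mul, inv_mul_cancel₀ hk, C_1,
      one_mul, be_inl]
    have : ((k : ℝ) + 1)⁻¹ * ((((l : ℕ) : ℚ) + 1 : ℚ) : ℝ) =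
        (((l : ℕ) : ℝ) + 1) * ((k : ℝ) + 1)⁻¹ := by
      push_cast
      ring
    rw [this]
  have e2 : (∏ _l : Fin n, C (((k : ℝ) + 1)⁻¹)) *
      (∏ l : Fin n, (X - C ((be t n k (Sum.inr l) : ℚ) : ℝ)).comp (C ((k : ℝ) + 1) * X)) =
      ∏ l : Fin n, (X - C (1 + ((l : ℕ) : ℝ) * (((k : ℝ) + 1)⁻¹) ^ 2)) := by
    rw [← Finset.prod_mul_distrib]
    refine Finset.prod_congr rfl fun l _ => ?_
    rw [sub_comp, X_comp, C_comp, mul_sub, ← mul_assoc, ← C_mul, ← C_mul, inv_mul_cancel₀ hk, C_1,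
      one_mul, be_inr]
    have : ((k : ℝ) + 1)⁻¹ * ((((k : ℚ) + 1) + ((l : ℕ) : ℚ) / ((k : ℚ) + 1) : ℚ) : ℝ) =
        1 + ((l : ℕ) : ℝ) * (((k : ℝ) + 1)⁻¹) ^ 2 := by
      push_cast
      field_simp
    rw [this]
  rw [e0, h4, mul_mul_mul_comm, e1, e2]

/-- the places -/
noncomputable def zp (t n : ℕ) (z : Fin (n - 1) → ℂ) : Fin t ⊕ Fin (n - 1) → ℂ
  | Sum.inl l => ((((l : ℕ) : ℝ) + 1 : ℝ) : ℂ)
  | Sum.inr j => z j

lemma K_inv_c : Tendsto (fun k : ℕ => ((((k : ℝ) + 1)⁻¹ : ℝ) : ℂ)) atTop (𝓝 0) := by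
  have h := (Complex.continuous_ofReal.tendsto 0).comp K_inv
  simpa [Function.comp_def] using h

lemma ev_ne {a b : ℂ} (hab : a ≠ b) {ζ ξ : ℕ → ℂ} (hζ : Tendsto ζ atTop (𝓝 a))
    (hξ : Tendsto ξ atTop (𝓝 b)) : ∀ᶠ k in atTop, ζ k ≠ ξ k :=
  ((hζ.sub hξ).eventually_ne (sub_ne_zero.2 hab)).mono fun _ hk => sub_ne_zero.1 hk

lemma sep_aux (a b : ℂ) (hb : b ≠ 0) (ζ ξ : ℕ → ℂ) (hζ : Tendsto ζ atTop (𝓝 a))
    (hξ : Tendsto ξ atTop (𝓝 b)) :
    ∀ᶠ k : ℕ in atTop, ζ k ≠ (((k : ℝ) + 1 : ℝ) : ℂ) * ξ k := by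
  have h1 : Tendsto (fun k : ℕ => ((((k : ℝ) + 1)⁻¹ : ℝ) : ℂ) * ζ k) atTop (𝓝 0) := by
    have := K_inv_c.mul hζ
    rwa [zero_mul] at this
  filter_upwards [ev_ne hb.symm h1 hξ] with k hk h
  apply hk
  have h2 : (((k : ℝ) + 1 : ℝ) : ℂ) ≠ 0 := by
    have : ((k : ℝ) + 1) ≠ 0 := by positivity
    exact_mod_cast this
  rw [h, Complex.ofReal_inv, ← mul_assoc, inv_mul_cancel₀ h2, one_mul]

theorem asm (hPL : S_PL) (t n : ℕ) (hn : Odd n) (z : Fin (n - 1) → ℂ)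
    (hz : Function.Injective z)
    (h : ∀ j, z j ≠ 0 ∧ (z j).im ≠ 0 ∧
      aeval (z j) (X ^ t * (X ^ n - (X - 1) ^ n) : ℝ[X]) = 0 ∧
      aeval (z j) (derivative (X ^ t * (X ^ n - (X - 1) ^ n) : ℝ[X])) ≠ 0) :
    ∀ᶠ k in atTop, ∃ w : Fin t ⊕ Fin (n - 1) → ℂ, Function.Injective w ∧
      ∀ i, aeval (w i) (Pk t n k) = 0 ∧ aeval (w i) (derivative (Pk t n k)) ≠ 0 ∧
        ((w i).im = 0 ↔ (zp t n z i).im = 0) := by
  have hn1 : 1 ≤ n := hn.pos
  have key := hPL (Fin t ⊕ Fin (n - 1)) (Pk t n) (fun _ _ => 0)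
    (fun i k => Sum.elim (fun _ => 1) (fun _ => (k : ℝ) + 1) i)
    (fun i k => Sum.elim (fun _ => (((k : ℝ) + 1) ^ n)⁻¹)
      (fun _ => (((k : ℝ) + 1) ^ (t + n))⁻¹) i)
    (Sum.elim (fun _ => ∏ l : Fin t, (X - C (((l : ℕ) : ℝ) + 1)))
      (fun _ => X ^ t * (X ^ n - (X - 1) ^ n))) (zp t n z)
    (fun k => ⟨Pk_ne t n k hn1, by
      rw [Fintype.card_sum, Fintype.card_fin, Fintype.card_fin]
      exact Pk_deg t n k hn1⟩)
    (by
      rintro (i | i) k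
      · simp only [Sum.elim_inl]; exact one_ne_zero
      · simp only [Sum.elim_inr]; positivity)
    (by
      rintro (i | i) d
      · simp only [Sum.elim_inl]; exact lim_inl t n hn d
      · simp only [Sum.elim_inr]; exact lim_inr t n d)
    (by
      rintro (i | i)
      · simp only [Sum.elim_inl, zp]
        have h0 : aeval ((((((i : ℕ) : ℝ) + 1 : ℝ)) : ℂ))
            (∏ l : Fin t, (X - C (((l : ℕ) : ℝ) + 1)) : ℝ[X]) = 0 := by
          rw [map_prod]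
          refine Finset.prod_eq_zero (Finset.mem_univ i) ?_
          rw [map_sub, aeval_X, aeval_C]
          exact sub_self _
        refine ⟨h0, ?_⟩
        have hsep : (∏ l : Fin t, (X - C (((l : ℕ) : ℝ) + 1)) : ℝ[X]).Separable := by
          rw [separable_prod_X_sub_C_iff]
          intro a b hab
          have h1 : ((a : ℕ) : ℝ) = (b : ℕ) := by linarith
          have h2 : (a : ℕ) = b := by exact_mod_cast h1
          exact Fin.ext h2
        exact hsep.aeval_derivative_ne_zero h0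
      · exact ⟨(h i).2.2.1, (h i).2.2.2⟩)
    (by
      rintro (i | i) (j | j) hij ζ ξ hζ hξ
      · have hne : zp t n z (Sum.inl i) ≠ zp t n z (Sum.inl j) := by
          intro h1
          simp only [zp] at h1
          have h2 : ((i : ℕ) : ℝ) + 1 = ((j : ℕ) : ℝ) + 1 := by exact_mod_cast h1
          have h3 : ((i : ℕ) : ℝ) = ((j : ℕ) : ℝ) := by linarith
          have h4 : (i : ℕ) = j := by exact_mod_cast h3
          exact hij (by rw [Fin.ext h4])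
        filter_upwards [ev_ne hne hζ hξ] with k hk
        simpa using hk
      · filter_upwards [sep_aux _ _ (h j).1 ζ ξ hζ hξ] with k hk
        simpa using hk
      · filter_upwards [sep_aux _ _ (h i).1 ξ ζ hξ hζ] with k hk
        intro h1
        exact hk (by simpa using h1.symm)
      · have hne : z i ≠ z j := fun h1 => hij (by rw [hz h1])
        filter_upwards [ev_ne hne hζ hξ] with k hk
        intro h1
        apply hk
        have h2 : (((k : ℝ) + 1 : ℝ) : ℂ) ≠ 0 := by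
          have : ((k : ℝ) + 1) ≠ 0 := by positivity
          exact_mod_cast this
        simp only [Sum.elim_inr, Complex.ofReal_zero, zero_add] at h1
        exact mul_left_cancel₀ h2 h1)
  exact key.mono fun k hk => hk.1

theorem t_CLL : S_CLL := by
  intro m t htm hodd
  obtain ⟨n, rfl⟩ : ∃ n, m = t + n := ⟨m - t, by omega⟩
  have hn : Odd n := by
    rw [Nat.add_sub_cancel_left] at hodd
    exact hodd
  have hn1 : 1 ≤ n := hn.pos
  obtain ⟨z, hz, hzz⟩ := Pool.Agent.J4H57.TQ.zz 0 n hn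
  have hzt : ∀ l, z l ≠ 0 ∧ (z l).im ≠ 0 ∧
      aeval (z l) (X ^ t * (X ^ n - (X - 1) ^ n) : ℝ[X]) = 0 ∧
      aeval (z l) (derivative (X ^ t * (X ^ n - (X - 1) ^ n) : ℝ[X])) ≠ 0 := by
    intro l
    obtain ⟨h1, h2, h3, h4⟩ := hzz l
    rw [mul_zero, pow_zero, one_mul] at h3 h4
    refine ⟨h1, h2, ?_, ?_⟩
    · rw [map_mul, h3, mul_zero]
    · rw [derivative_mul, map_add, map_mul, map_mul, h3, mul_zero, zero_add, map_pow, aeval_X]
      exact mul_ne_zero (pow_ne_zero _ h1) h4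
  obtain ⟨k, ⟨w, hw, hww⟩, hk⟩ :=
    ((asm Pool.Agent.J4H97.TQ.t_PL t n hn z hz hzt).and (eventually_ge_atTop t)).exists
  have hsum : ∑ i, be t n k i ≠ 0 := by
    refine (Finset.sum_pos (fun i _ => be_pos t n k i) ?_).ne'
    exact ⟨Sum.inr ⟨0, hn1⟩, Finset.mem_univ _⟩
  refine fi (t + n) t (by omega) (Fin t ⊕ Fin n) (Fin t ⊕ Fin (n - 1))
    (by simp) (by simp; omega) (be t n k) (be_inj t n k hk) hsum w hw
    (fun i => ⟨(hww i).1, (hww i).2.1⟩) ?_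
  have h1 : {i | (w i).im = 0} = Set.range (Sum.inl : Fin t → Fin t ⊕ Fin (n - 1)) := by
    ext i
    rw [Set.mem_ofPred_eq, (hww i).2.2]
    rcases i with l | l
    · simp [zp]
    · simp [zp, (hzz l).2.1]
  rw [h1, ← Set.image_univ, Set.ncard_image_of_injective _ Sum.inl_injective, Set.ncard_univ,
    Nat.card_eq_fintype_card, Fintype.card_fin]

end Pool.Agent.J4H52.LV
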